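import Pool.Agent.Q231.RC.Defs

namespace Q231.RC

/-- hat functions of the nodes `1, ..., 6`, constant outside `[1, 6]` -/
noncomputable def H (i : Fin 6) (x : ℝ) : ℝ :=
  match i with
  | 0 => (1 - |x - 1| + |x - 2|) / 2
  | 1 => (|x - 1| - 2 * |x - 2| + |x - 3|) / 2
  | 2 => (|x - 2| - 2 * |x - 3| + |x - 4|) / 2
  | 3 => (|x - 3| - 2 * |x - 4| + |x - 5|) / 2
  | 4 => (|x - 4| - 2 * |x - 5| + |x - 6|) / 2
  | 5 => (1 - |x - 6| + |x - 5|) / 2

/-- distance to `[1, 6]` -/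
noncomputable def D (x : ℝ) : ℝ := (|x - 1| + |x - 6| - 5) / 2

theorem H0 (x : ℝ) : H 0 x = (1 - |x - 1| + |x - 2|) / 2 := rfl
theorem H1 (x : ℝ) : H 1 x = (|x - 1| - 2 * |x - 2| + |x - 3|) / 2 := rfl
theorem H2 (x : ℝ) : H 2 x = (|x - 2| - 2 * |x - 3| + |x - 4|) / 2 := rfl
theorem H3 (x : ℝ) : H 3 x = (|x - 3| - 2 * |x - 4| + |x - 5|) / 2 := rfl
theorem H4 (x : ℝ) : H 4 x = (|x - 4| - 2 * |x - 5| + |x - 6|) / 2 := rfl
theorem H5 (x : ℝ) : H 5 x = (1 - |x - 6| + |x - 5|) / 2 := rfl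

theorem sum6 (f : Fin 6 → ℝ) : ∑ i, f i = f 0 + f 1 + f 2 + f 3 + f 4 + f 5 := by
  simp only [Fin.sum_univ_succ, Fin.sum_univ_zero]
  have : ∀ a b c d e g : ℝ, a + (b + (c + (d + (e + (g + 0))))) = a + b + c + d + e + g := by
    intros; ring
  exact this _ _ _ _ _ _

theorem tri (x a b c : ℝ) (h : a + c = 2 * b) : 2 * |x - b| ≤ |x - a| + |x - c| := by
  have h1 : 2 * (x - b) = (x - a) + (x - c) := by linarith
  have h2 : |2 * (x - b)| = 2 * |x - b| := by rw [abs_mul]; norm_num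
  rw [← h2, h1]
  exact abs_add_le _ _

theorem H_nonneg (i : Fin 6) (x : ℝ) : 0 ≤ H i x := by
  have e1 := tri x 1 2 3 (by norm_num)
  have e2 := tri x 2 3 4 (by norm_num)
  have e3 := tri x 3 4 5 (by norm_num)
  have e4 := tri x 4 5 6 (by norm_num)
  have e0 : |x - 1| ≤ 1 + |x - 2| := by
    have := abs_add_le (x - 2) 1
    rw [abs_one] at this
    have h : x - 2 + 1 = x - 1 := by ring
    rw [h] at this
    linarith
  have e5 : |x - 6| ≤ 1 + |x - 5| := by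
    have := abs_add_le (x - 5) (-1)
    rw [abs_neg, abs_one] at this
    have h : x - 5 + -1 = x - 6 := by ring
    rw [h] at this
    linarith
  fin_cases i
  · show 0 ≤ H 0 x; rw [H0]; linarith
  · show 0 ≤ H 1 x; rw [H1]; linarith
  · show 0 ≤ H 2 x; rw [H2]; linarith
  · show 0 ≤ H 3 x; rw [H3]; linarith
  · show 0 ≤ H 4 x; rw [H4]; linarith
  · show 0 ≤ H 5 x; rw [H5]; linarith

theorem H_sum (x : ℝ) : ∑ i, H i x = 1 := by
  rw [sum6, H0, H1, H2, H3, H4, H5]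
  ring

theorem H_continuous (i : Fin 6) : Continuous (H i) := by
  fin_cases i
  · show Continuous (fun x => (1 - |x - 1| + |x - 2|) / 2); fun_prop
  · show Continuous (fun x => (|x - 1| - 2 * |x - 2| + |x - 3|) / 2); fun_prop
  · show Continuous (fun x => (|x - 2| - 2 * |x - 3| + |x - 4|) / 2); fun_prop
  · show Continuous (fun x => (|x - 3| - 2 * |x - 4| + |x - 5|) / 2); fun_prop
  · show Continuous (fun x => (|x - 4| - 2 * |x - 5| + |x - 6|) / 2); fun_prop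
  · show Continuous (fun x => (1 - |x - 6| + |x - 5|) / 2); fun_prop

theorem D_continuous : Continuous D := by
  show Continuous (fun x => (|x - 1| + |x - 6| - 5) / 2); fun_prop

/-- the node `i + 1` -/
noncomputable def nd (i : Fin 6) : ℝ := (i : ℕ) + 1

theorem H_node (i k : Fin 6) : H i (nd k) = if i = k then 1 else 0 := by
  fin_cases i <;> fin_cases k <;> simp [H, nd] <;> norm_num

theorem two_le (x a b : ℝ) : b - a ≤ |x - a| + |x - b| := by
  have h1 := le_abs_self (x - a)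
  have h2 := neg_abs_le (x - b)
  linarith

theorem H_ge (i : Fin 6) (x : ℝ) : 1 - |x - nd i| ≤ H i x := by
  have e0 := two_le x 1 2
  have e1 := two_le x 1 3
  have e2 := two_le x 2 4
  have e3 := two_le x 3 5
  have e4 := two_le x 4 6
  have e5 := two_le x 5 6
  fin_cases i
  · show 1 - |x - nd 0| ≤ H 0 x
    rw [H0, show nd 0 = 1 by simp [nd]]; linarith
  · show 1 - |x - nd 1| ≤ H 1 x
    rw [H1, show nd 1 = 2 by simp [nd]; norm_num]; linarith
  · show 1 - |x - nd 2| ≤ H 2 x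
    rw [H2, show nd 2 = 3 by simp [nd]; norm_num]; linarith
  · show 1 - |x - nd 3| ≤ H 3 x
    rw [H3, show nd 3 = 4 by simp [nd]; norm_num]; linarith
  · show 1 - |x - nd 4| ≤ H 4 x
    rw [H4, show nd 4 = 5 by simp [nd]; norm_num]; linarith
  · show 1 - |x - nd 5| ≤ H 5 x
    rw [H5, show nd 5 = 6 by simp [nd]; norm_num]; linarith

/-- On `[1, 6]` a point is a node or strictly between two adjacent nodes. -/
theorem between {x : ℝ} (h1 : 1 ≤ x) (h2 : x ≤ 6) :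
    (∃ i, x = nd i) ∨ ∃ i i' : Fin 6, i ≠ i' ∧ 0 < H i x ∧ 0 < H i' x := by
  have key : ∀ i i' : Fin 6, i ≠ i' → nd i < x → x < nd i' → nd i' = nd i + 1 →
      ∃ i i' : Fin 6, i ≠ i' ∧ 0 < H i x ∧ 0 < H i' x := by
    intro i i' hne a1 a2 a3
    refine ⟨i, i', hne, lt_of_lt_of_le ?_ (H_ge i x), lt_of_lt_of_le ?_ (H_ge i' x)⟩
    · rw [abs_of_pos (by linarith)]; linarith
    · rw [abs_of_neg (by linarith)]; linarith
  have n0 : nd 0 = 1 := by simp [nd]
  have n1 : nd 1 = 2 := by simp [nd]; norm_num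
  have n2 : nd 2 = 3 := by simp [nd]; norm_num
  have n3 : nd 3 = 4 := by simp [nd]; norm_num
  have n4 : nd 4 = 5 := by simp [nd]; norm_num
  have n5 : nd 5 = 6 := by simp [nd]; norm_num
  rcases eq_or_lt_of_le h1 with h | h1
  · exact Or.inl ⟨0, by rw [n0]; exact h.symm⟩
  rcases lt_trichotomy x 2 with h | h | h
  · exact Or.inr (key 0 1 (by decide) (by rw [n0]; exact h1) (by rw [n1]; exact h)
      (by rw [n0, n1]; norm_num))
  · exact Or.inl ⟨1, by rw [n1]; exact h⟩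
  rcases lt_trichotomy x 3 with h' | h' | h'
  · exact Or.inr (key 1 2 (by decide) (by rw [n1]; exact h) (by rw [n2]; exact h')
      (by rw [n1, n2]; norm_num))
  · exact Or.inl ⟨2, by rw [n2]; exact h'⟩
  rcases lt_trichotomy x 4 with h'' | h'' | h''
  · exact Or.inr (key 2 3 (by decide) (by rw [n2]; exact h') (by rw [n3]; exact h'')
      (by rw [n2, n3]; norm_num))
  · exact Or.inl ⟨3, by rw [n3]; exact h''⟩
  rcases lt_trichotomy x 5 with h3 | h3 | h3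
  · exact Or.inr (key 3 4 (by decide) (by rw [n3]; exact h'') (by rw [n4]; exact h3)
      (by rw [n3, n4]; norm_num))
  · exact Or.inl ⟨4, by rw [n4]; exact h3⟩
  rcases eq_or_lt_of_le h2 with h4 | h4
  · exact Or.inl ⟨5, by rw [n5]; exact h4⟩
  · exact Or.inr (key 4 5 (by decide) (by rw [n4]; exact h3) (by rw [n5]; exact h4)
      (by rw [n4, n5]; norm_num))

/-- the convexity in one variable -/
theorem conc1 (c : Fin 6 → ℝ) (M : ℝ) (h1 : c 0 + c 2 ≤ 2 * c 1) (h2 : c 1 + c 3 ≤ 2 * c 2)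
    (h3 : c 2 + c 4 ≤ 2 * c 3) (h4 : c 3 + c 5 ≤ 2 * c 4) (h0 : c 1 - c 0 ≤ M)
    (h5 : c 4 - c 5 ≤ M) (x1 x2 t : ℝ) (ht0 : 0 ≤ t) (ht1 : t ≤ 1) :
    M * D ((1 - t) * x1 + t * x2) - ∑ i, c i * H i ((1 - t) * x1 + t * x2) ≤
      (1 - t) * (M * D x1 - ∑ i, c i * H i x1) + t * (M * D x2 - ∑ i, c i * H i x2) := by
  have form : ∀ x, M * D x - ∑ i, c i * H i x =
      -(c 0 + c 5) / 2 - 5 * M / 2 + (M + c 0 - c 1) / 2 * |x - 1| +
      (2 * c 1 - c 0 - c 2) / 2 * |x - 2| + (2 * c 2 - c 1 - c 3) / 2 * |x - 3| +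
      (2 * c 3 - c 2 - c 4) / 2 * |x - 4| + (2 * c 4 - c 3 - c 5) / 2 * |x - 5| +
      (M + c 5 - c 4) / 2 * |x - 6| := by
    intro x
    rw [sum6, H0, H1, H2, H3, H4, H5, D]
    ring
  have ab : ∀ a : ℝ, |(1 - t) * x1 + t * x2 - a| ≤ (1 - t) * |x1 - a| + t * |x2 - a| := by
    intro a
    have e : (1 - t) * x1 + t * x2 - a = (1 - t) * (x1 - a) + t * (x2 - a) := by ring
    rw [e]
    refine (abs_add_le _ _).trans ?_
    rw [abs_mul, abs_mul, abs_of_nonneg ht0, abs_of_nonneg (by linarith : (0:ℝ) ≤ 1 - t)]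
  rw [form, form, form]
  have m1 := mul_le_mul_of_nonneg_left (ab 1) (by linarith : 0 ≤ (M + c 0 - c 1) / 2)
  have m2 := mul_le_mul_of_nonneg_left (ab 2) (by linarith : 0 ≤ (2 * c 1 - c 0 - c 2) / 2)
  have m3 := mul_le_mul_of_nonneg_left (ab 3) (by linarith : 0 ≤ (2 * c 2 - c 1 - c 3) / 2)
  have m4 := mul_le_mul_of_nonneg_left (ab 4) (by linarith : 0 ≤ (2 * c 3 - c 2 - c 4) / 2)
  have m5 := mul_le_mul_of_nonneg_left (ab 5) (by linarith : 0 ≤ (2 * c 4 - c 3 - c 5) / 2)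
  have m6 := mul_le_mul_of_nonneg_left (ab 6) (by linarith : 0 ≤ (M + c 5 - c 4) / 2)
  linarith

/-- interpolation -/
noncomputable def bil (g : Fin 6 → Fin 6 → ℝ) (x y : ℝ) : ℝ := ∑ i, ∑ j, g i j * H i x * H j y

/-- separately concave grid functions -/
structure Conc (g : Fin 6 → Fin 6 → ℝ) (M : ℝ) : Prop where
  hx : ∀ j, g 0 j + g 2 j ≤ 2 * g 1 j ∧ g 1 j + g 3 j ≤ 2 * g 2 j ∧ g 2 j + g 4 j ≤ 2 * g 3 j ∧
    g 3 j + g 5 j ≤ 2 * g 4 j ∧ g 1 j - g 0 j ≤ M ∧ g 4 j - g 5 j ≤ M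
  hy : ∀ i, g i 0 + g i 2 ≤ 2 * g i 1 ∧ g i 1 + g i 3 ≤ 2 * g i 2 ∧ g i 2 + g i 4 ≤ 2 * g i 3 ∧
    g i 3 + g i 5 ≤ 2 * g i 4 ∧ g i 1 - g i 0 ≤ M ∧ g i 4 - g i 5 ≤ M

theorem wavg (w : Fin 6 → ℝ) (hw : ∀ i, 0 ≤ w i) (a b : Fin 6 → ℝ)
    (h : ∀ i, a i ≤ b i) : ∑ i, w i * a i ≤ ∑ i, w i * b i :=
  Finset.sum_le_sum fun i _ => mul_le_mul_of_nonneg_left (h i) (hw i)

theorem conc_rows (r : Fin 6 → Fin 6 → ℝ) (M : ℝ) (w : Fin 6 → ℝ) (hw : ∀ i, 0 ≤ w i)
    (hw1 : ∑ i, w i = 1)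
    (hr : ∀ j, r 0 j + r 2 j ≤ 2 * r 1 j ∧ r 1 j + r 3 j ≤ 2 * r 2 j ∧ r 2 j + r 4 j ≤ 2 * r 3 j ∧
      r 3 j + r 5 j ≤ 2 * r 4 j ∧ r 1 j - r 0 j ≤ M ∧ r 4 j - r 5 j ≤ M)
    (x1 x2 t : ℝ) (ht0 : 0 ≤ t) (ht1 : t ≤ 1) :
    M * D ((1 - t) * x1 + t * x2) - ∑ i, (∑ j, w j * r i j) * H i ((1 - t) * x1 + t * x2) ≤
      (1 - t) * (M * D x1 - ∑ i, (∑ j, w j * r i j) * H i x1) +
        t * (M * D x2 - ∑ i, (∑ j, w j * r i j) * H i x2) := by
  have lin2 : ∀ i k l : Fin 6, (∀ j, r i j + r k j ≤ 2 * r l j) →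
      (∑ j, w j * r i j) + (∑ j, w j * r k j) ≤ 2 * (∑ j, w j * r l j) := by
    intro i k l h
    rw [← Finset.sum_add_distrib, Finset.mul_sum]
    refine Finset.sum_le_sum fun j _ => ?_
    have := mul_le_mul_of_nonneg_left (h j) (hw j)
    linarith
  have lin1 : ∀ i k : Fin 6, (∀ j, r i j - r k j ≤ M) →
      (∑ j, w j * r i j) - (∑ j, w j * r k j) ≤ M := by
    intro i k h
    rw [← Finset.sum_sub_distrib]
    calc ∑ j, (w j * r i j - w j * r k j) ≤ ∑ j, w j * M := by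
          refine Finset.sum_le_sum fun j _ => ?_
          have := mul_le_mul_of_nonneg_left (h j) (hw j)
          linarith
      _ = M := by rw [← Finset.sum_mul, hw1, one_mul]
  exact conc1 (fun i => ∑ j, w j * r i j) M (lin2 0 2 1 fun j => (hr j).1)
    (lin2 1 3 2 fun j => (hr j).2.1) (lin2 2 4 3 fun j => (hr j).2.2.1)
    (lin2 3 5 4 fun j => (hr j).2.2.2.1) (lin1 1 0 fun j => (hr j).2.2.2.2.1)
    (lin1 4 5 fun j => (hr j).2.2.2.2.2) x1 x2 t ht0 ht1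

/-- The function `L z - bil g x y + M (D x + D y)`. -/
noncomputable def ff (L M : ℝ) (g : Fin 6 → Fin 6 → ℝ) (A : Pt) : ℝ :=
  L * A.2.2 - bil g A.1 A.2.1 + M * (D A.1 + D A.2.1)

theorem bil_x (g : Fin 6 → Fin 6 → ℝ) (x y : ℝ) :
    bil g x y = ∑ i, (∑ j, H j y * g i j) * H i x := by
  unfold bil
  refine Finset.sum_congr rfl fun i _ => ?_
  rw [Finset.sum_mul]
  refine Finset.sum_congr rfl fun j _ => ?_
  ring

theorem bil_y (g : Fin 6 → Fin 6 → ℝ) (x y : ℝ) :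
    bil g x y = ∑ j, (∑ i, H i x * g i j) * H j y := by
  unfold bil
  rw [Finset.sum_comm]
  refine Finset.sum_congr rfl fun i _ => ?_
  rw [Finset.sum_mul]
  refine Finset.sum_congr rfl fun j _ => ?_
  ring

theorem ff_rc (L M : ℝ) (g : Fin 6 → Fin 6 → ℝ) (hg : Conc g M) : RankOneConvex (ff L M g) := by
  rintro ⟨x1, y1, z1⟩ ⟨x2, y2, z2⟩ ⟨-, h⟩ t ht0 ht1
  have h' : (x2 - x1) * (y2 - y1) = 0 := h
  simp only [ff, Prod.fst_add, Prod.snd_add, Prod.smul_fst, Prod.smul_snd, smul_eq_mul]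
  rcases mul_eq_zero.1 h' with h0 | h0
  · have hx : x2 = x1 := by linarith
    subst hx
    have e : (1 - t) * x2 + t * x2 = x2 := by ring
    rw [e, bil_y g x2, bil_y g x2, bil_y g x2]
    have := conc_rows (fun j i => g i j) M (fun i => H i x2) (fun i => H_nonneg i x2) (H_sum x2)
      hg.hy y1 y2 t ht0 ht1
    nlinarith [this]
  · have hy : y2 = y1 := by linarith
    subst hy
    have e : (1 - t) * y2 + t * y2 = y2 := by ring
    rw [e, bil_x g _ y2, bil_x g _ y2, bil_x g _ y2]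
    have := conc_rows g M (fun j => H j y2) (fun j => H_nonneg j y2) (H_sum y2)
      hg.hx x1 x2 t ht0 ht1
    nlinarith [this]

theorem ff_cont (L M : ℝ) (g : Fin 6 → Fin 6 → ℝ) : Continuous (ff L M g) := by
  unfold ff bil
  have h1 : ∀ i, Continuous fun A : Pt => H i A.1 := fun i => (H_continuous i).comp continuous_fst
  have h2 : ∀ i, Continuous fun A : Pt => H i A.2.1 := fun i =>
    (H_continuous i).comp (continuous_fst.comp continuous_snd)
  have h3 : Continuous fun A : Pt => D A.1 := D_continuous.comp continuous_fst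
  have h4 : Continuous fun A : Pt => D A.2.1 := D_continuous.comp (continuous_fst.comp continuous_snd)
  have h5 : Continuous fun A : Pt => ∑ i, ∑ j, g i j * H i A.1 * H j A.2.1 :=
    continuous_finsetSum _ fun i _ => continuous_finsetSum _ fun j _ =>
      (continuous_const.mul (h1 i)).mul (h2 j)
  exact ((continuous_const.mul (continuous_snd.comp continuous_snd)).sub h5).add
    (continuous_const.mul (h3.add h4))

theorem bil_node (g : Fin 6 → Fin 6 → ℝ) (i j : Fin 6) : bil g (nd i) (nd j) = g i j := by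
  unfold bil
  rw [Finset.sum_eq_single i, Finset.sum_eq_single j]
  · rw [H_node, H_node, if_pos rfl, if_pos rfl]; ring
  · intro b _ hb
    rw [H_node b j, if_neg hb]; ring
  · intro h; exact absurd (Finset.mem_univ _) h
  · intro b _ hb
    refine Finset.sum_eq_zero fun j' _ => ?_
    rw [H_node b, if_neg hb]; ring
  · intro h; exact absurd (Finset.mem_univ _) h

theorem D_zero {x : ℝ} (h1 : 1 ≤ x) (h2 : x ≤ 6) : D x = 0 := by
  unfold D
  rw [abs_of_nonneg (by linarith), abs_of_nonpos (by linarith)]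
  ring

theorem bil_comb (g p : Fin 6 → Fin 6 → ℝ) (s x y : ℝ) :
    bil (fun i j => g i j - s * p i j) x y = bil g x y - s * bil p x y := by
  unfold bil
  rw [Finset.mul_sum, ← Finset.sum_sub_distrib]
  refine Finset.sum_congr rfl fun i _ => ?_
  rw [Finset.mul_sum, ← Finset.sum_sub_distrib]
  refine Finset.sum_congr rfl fun j _ => ?_
  ring

/-- positivity of the interpolation away from isolated zeros -/
theorem posbox (p : Fin 6 → Fin 6 → ℝ) (hp : ∀ i j, 0 ≤ p i j)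
    (hz : ∀ i j i' j', p i j = 0 → p i' j' = 0 → (i = i' ∨ j = j') → (i = i' ∧ j = j'))
    {x y : ℝ} (hx1 : 1 ≤ x) (hx2 : x ≤ 6) (hy1 : 1 ≤ y) (hy2 : y ≤ 6) :
    0 < bil p x y ∨ ∃ i j, p i j = 0 ∧ x = nd i ∧ y = nd j := by
  by_contra hcon
  push Not at hcon
  obtain ⟨h0, hne⟩ := hcon
  have hterm : ∀ i j, 0 ≤ p i j * H i x * H j y := fun i j =>
    mul_nonneg (mul_nonneg (hp i j) (H_nonneg i x)) (H_nonneg j y)
  have hrow : ∀ i, 0 ≤ ∑ j, p i j * H i x * H j y := fun i =>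
    Finset.sum_nonneg fun j _ => hterm i j
  have hall : ∀ i j, p i j * H i x * H j y = 0 := by
    have h1 : ∑ i, ∑ j, p i j * H i x * H j y = 0 :=
      le_antisymm h0 (Finset.sum_nonneg fun i _ => hrow i)
    intro i j
    have h2 := (Finset.sum_eq_zero_iff_of_nonneg fun i _ => hrow i).1 h1 i (Finset.mem_univ _)
    exact (Finset.sum_eq_zero_iff_of_nonneg fun j _ => hterm i j).1 h2 j (Finset.mem_univ _)
  have hzero : ∀ i j, 0 < H i x → 0 < H j y → p i j = 0 := by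
    intro i j hi hj
    have := hall i j
    rcases mul_eq_zero.1 this with h | h
    · rcases mul_eq_zero.1 h with h | h
      · exact h
      · exact absurd h hi.ne'
    · exact absurd h hj.ne'
  have posnode : ∀ k : Fin 6, 0 < H k (nd k) := fun k => by rw [H_node, if_pos rfl]; norm_num
  rcases between hx1 hx2 with ⟨i, rfl⟩ | ⟨i, i', hii, hi, hi'⟩
  · rcases between hy1 hy2 with ⟨j, rfl⟩ | ⟨j, j', hjj, hj, hj'⟩
    · exact hne i j (hzero i j (posnode i) (posnode j)) rfl rfl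
    · exact hjj (hz i j i j' (hzero i j (posnode i) hj) (hzero i j' (posnode i) hj')
        (Or.inl rfl)).2
  · rcases between hy1 hy2 with ⟨j, rfl⟩ | ⟨j, j', hjj, hj, hj'⟩
    · exact hii (hz i j i' j (hzero i j hi (posnode j)) (hzero i' j hi' (posnode j))
        (Or.inr rfl)).1
    · exact hii (hz i j i' j (hzero i j hi hj) (hzero i' j hi' hj) (Or.inr rfl)).1

end Q231.RC
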