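import Mathlib

/-!
Rank-one convexity for upper triangular `2 × 2` matrices; the matrix with diagonal `x`, `y` and
upper right entry `z` is the point `(x, y, z)`.
-/

namespace Q231.RC

/-- points `(x, y, z)` -/
abbrev Pt := ℝ × ℝ × ℝ

/-- rank-one directions `(u, v, w) ≠ 0` with `u v = 0` -/
def RankOneDir (C : Pt) : Prop := C ≠ 0 ∧ C.1 * C.2.1 = 0

/-- convexity along all lines whose direction is a rank-one direction -/
def RankOneConvex (f : Pt → ℝ) : Prop :=
  ∀ A B : Pt, RankOneDir (B - A) → ∀ t : ℝ, 0 ≤ t → t ≤ 1 →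
    f ((1 - t) • A + t • B) ≤ (1 - t) * f A + t * f B

/-- `T₄` configurations `K_j = P + C_1 + ... + C_(j-1) + α_j C_j`, with `α_j ≥ 1` -/
def IsT4 (K : Fin 4 → Pt) : Prop :=
  ∃ (P : Pt) (C : Fin 4 → Pt) (α : Fin 4 → ℝ), (∀ j, RankOneDir (C j)) ∧ ∑ j, C j = 0 ∧
    (∀ j, 1 ≤ α j) ∧ ∀ j, K j = P + ∑ i ∈ Finset.univ.filter (fun i => i < j), C i + α j • C j

/-- Carrier of the limit argument: values of continuous rank-one convex functions. -/
def hullc (F : Set Pt) : Set Pt :=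
  {A | ∀ f : Pt → ℝ, RankOneConvex f → Continuous f → (∀ B ∈ F, f B ≤ 0) → f A ≤ 0}

end Q231.RC
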