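import Pool.Agent.Q231.RC.Hull

namespace Q231.RC

open Filter Topology

/-- The rank-one convex hull of a finite set: `f A` is at most the maximum of `f` on `K`. -/
def hullMax (K : Set Pt) : Set Pt :=
  {A | ∀ f : Pt → ℝ, RankOneConvex f → ∃ B ∈ K, f A ≤ f B}

/-- The hulls of the `T₄` configurations in `S` and the rank-one segments with endpoints in `S`. -/
def opT4 (S : Set Pt) : Set Pt :=
  {A | ∃ K : Fin 4 → Pt, IsT4 K ∧ (∀ j, K j ∈ S) ∧ A ∈ hullMax (Set.range K)} ∪
    {A | ∃ B ∈ S, ∃ C ∈ S, RankOneDir (C - B) ∧ A ∈ segment ℝ B C}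

/-- the sets `K^(i)`, literally `K^(i+1) = opT4 K^(i)` -/
def itL (K : Set Pt) : ℕ → Set Pt
  | 0 => K
  | i + 1 => opT4 (itL K i)

/-- the sets `K^(i)`, with `K^(i+1) = K^(i) ∪ opT4 K^(i)` -/
def itU (K : Set Pt) : ℕ → Set Pt
  | 0 => K
  | i + 1 => itU K i ∪ opT4 (itU K i)

/-- seven points -/
def seven : Set Pt := six ∪ {(3, 3, 0)}

theorem vertex_hullMax {K : Set Pt} {A : Pt} (h : A ∈ K) : A ∈ hullMax K :=
  fun f _ => ⟨A, h, le_rfl⟩

theorem op_form {S : Set Pt} {A : Pt} (h : A ∈ opT4 S) :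
    ∃ F : Fin 4 → Pt, (∀ j, F j ∈ S) ∧ A ∈ hullMax (Set.range F) := by
  rcases h with ⟨K, -, h1, h2⟩ | ⟨B, hB, C, hC, h1, h2⟩
  · exact ⟨K, h1, h2⟩
  · refine ⟨fun j => if j = 0 then B else C, ?_, ?_⟩
    · intro j
      by_cases hj : j = 0
      · simp only [hj, if_true]; exact hB
      · simp only [hj, if_false]; exact hC
    · intro f hf
      obtain ⟨a, b, ha, hb, hab, rfl⟩ := h2
      have ha' : a = 1 - b := by linarith
      subst ha'
      have h3 := hf B C h1 b hb (by linarith)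
      by_contra hcon
      push Not at hcon
      have hB' := hcon B ⟨0, by simp⟩
      have hC' := hcon C ⟨1, by simp⟩
      nlinarith [mul_le_mul_of_nonneg_left hB'.le ha, mul_le_mul_of_nonneg_left hC'.le hb]

/-- limits of points of hulls are in the hull of the limit -/
theorem limit_hull {F : ℕ → Fin 4 → Pt} {A : ℕ → Pt} {F0 : Fin 4 → Pt} {A0 : Pt}
    (hF : Tendsto F atTop (𝓝 F0)) (hA : Tendsto A atTop (𝓝 A0))
    (h : ∀ n, A n ∈ hullMax (Set.range (F n))) : A0 ∈ hullc (Set.range F0) := by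
  intro f hf hc hK
  by_contra hcon
  push Not at hcon
  have h1 : ∀ᶠ n in atTop, f A0 / 2 < f (A n) := by
    have := (hc.tendsto A0).comp hA
    exact this.eventually (lt_mem_nhds (by linarith))
  have h2 : ∀ᶠ n in atTop, ∀ j, f (F n j) < f A0 / 2 := by
    rw [eventually_all]
    intro j
    have h3 : Tendsto (fun n => F n j) atTop (𝓝 (F0 j)) := (tendsto_pi_nhds.1 hF) j
    have h4 := (hc.tendsto (F0 j)).comp h3
    exact h4.eventually (gt_mem_nhds (by linarith [hK (F0 j) ⟨j, rfl⟩]))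
  obtain ⟨n, g1, g2⟩ := (h1.and h2).exists
  obtain ⟨_, ⟨j, rfl⟩, g3⟩ := h n f hf
  linarith [g2 j]

theorem Sset_bounded : Sset ⊆ Metric.closedBall (0 : Pt) 6 := by
  rintro ⟨x, y, z⟩ ⟨⟨h1, h2⟩, ⟨h3, h4⟩, ⟨h5, h6⟩, -⟩
  simp only at h1 h2 h3 h4 h5 h6
  rw [Metric.mem_closedBall, dist_zero_right, Prod.norm_def, Prod.norm_def]
  refine max_le ?_ (max_le ?_ ?_)
  · rw [Real.norm_eq_abs, abs_of_nonneg (by linarith)]; exact h2
  · rw [Real.norm_eq_abs, abs_of_nonneg (by linarith)]; exact h4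
  · rw [Real.norm_eq_abs, abs_of_nonneg (by linarith)]; linarith

theorem closure_op {S : Set Pt} (hS : closure S ⊆ Sset) : closure (opT4 S) ⊆ Sset := by
  intro A hA
  obtain ⟨a, ha, hlim⟩ := mem_closure_iff_seq_limit.1 hA
  choose F hF1 hF2 using fun n => op_form (ha n)
  have hcomp : IsCompact (closure S) := by
    refine IsCompact.of_isClosed_subset (isCompact_closedBall (0 : Pt) 6) isClosed_closure
      (hS.trans Sset_bounded)
  have hpi : IsCompact (Set.pi Set.univ fun _ : Fin 4 => closure S) :=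
    isCompact_univ_pi fun _ => hcomp
  obtain ⟨F0, hF0, φ, hφ, hconv⟩ := hpi.tendsto_subseq (x := F)
    (fun n j _ => subset_closure (hF1 n j))
  have h1 : A ∈ hullc (Set.range F0) :=
    limit_hull hconv (hlim.comp hφ.tendsto_atTop) fun n => hF2 (φ n)
  exact hullc_sub (by norm_num) F0 (fun j => hS (hF0 j (Set.mem_univ j))) h1

theorem seven_sub : seven ⊆ Sset := by
  rintro A (hA | hA)
  · rw [← range_E] at hA
    obtain ⟨k, rfl⟩ := hA
    exact E_mem k
  · rw [Set.mem_singleton_iff] at hA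
    subst hA
    refine ⟨⟨by norm_num, by norm_num⟩, ⟨by norm_num, by norm_num⟩, ⟨by norm_num, by norm_num⟩,
      Or.inr ?_⟩
    have hn : nd 2 = 3 := by simp [nd]; norm_num
    show 322 * (0 : ℝ) < bil g 3 3
    rw [← hn, bil_node]
    simp [g, G]

theorem seven_finite : seven.Finite := by
  refine Set.Finite.union ?_ (Set.finite_singleton _)
  rw [← range_E]
  exact Set.finite_range E

theorem closure_seven : closure seven ⊆ Sset := by
  rw [seven_finite.isClosed.closure_eq]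
  exact seven_sub

theorem closure_itL (i : ℕ) : closure (itL seven i) ⊆ Sset := by
  induction i with
  | zero => exact closure_seven
  | succ i ih => exact closure_op ih

theorem closure_itU (i : ℕ) : closure (itU seven i) ⊆ Sset := by
  induction i with
  | zero => exact closure_seven
  | succ i ih =>
    show closure (itU seven i ∪ opT4 (itU seven i)) ⊆ Sset
    rw [closure_union]
    exact Set.union_subset ih (closure_op ih)

/-! ### The points approaching the top -/

theorem T4a : IsT4 ![(1, 2, 0), (2, 6, 0), (6, 4, 0), (4, 1, 0)] := by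
  refine ⟨(4, 2, 0), ![(-2, 0, 0), (0, 2, 0), (2, 0, 0), (0, -2, 0)], ![3 / 2, 2, 2, 3 / 2],
    ?_, ?_, ?_, ?_⟩
  · intro j
    fin_cases j <;> simp [RankOneDir]
  · simp [Fin.sum_univ_four]
  · intro j
    fin_cases j <;> norm_num
  · intro j
    fin_cases j <;> simp [Finset.sum_filter, Fin.sum_univ_four] <;> norm_num

theorem T4b : IsT4 ![(1, 2, 0), (2, 6, 0), (5, 5, 0), (4, 1, 0)] := by
  refine ⟨(4, 2, 0), ![(-2, 0, 0), (0, 3, 0), (2, 0, 0), (0, -3, 0)], ![3 / 2, 4 / 3, 3 / 2, 4 / 3],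
    ?_, ?_, ?_, ?_⟩
  · intro j
    fin_cases j <;> simp [RankOneDir]
  · simp [Fin.sum_univ_four]
  · intro j
    fin_cases j <;> norm_num
  · intro j
    fin_cases j <;> simp [Finset.sum_filter, Fin.sum_univ_four] <;> norm_num

theorem m0 : ((1, 2, 0) : Pt) ∈ seven := by left; simp [six]
theorem m1 : ((4, 1, 0) : Pt) ∈ seven := by left; simp [six]
theorem m2 : ((6, 4, 0) : Pt) ∈ seven := by left; simp [six]
theorem m3 : ((3, 3, 1) : Pt) ∈ seven := by left; simp [six]
theorem m4 : ((5, 5, 0) : Pt) ∈ seven := by left; simp [six]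
theorem m5 : ((2, 6, 0) : Pt) ∈ seven := by left; simp [six]
theorem m6 : ((3, 3, 0) : Pt) ∈ seven := by right; rfl

theorem op_mono {S T : Set Pt} (h : S ⊆ T) : opT4 S ⊆ opT4 T := by
  rintro A (⟨K, h1, h2, h3⟩ | ⟨B, hB, C, hC, h1, h2⟩)
  · exact Or.inl ⟨K, h1, fun j => h (h2 j), h3⟩
  · exact Or.inr ⟨B, h hB, C, h hC, h1, h2⟩

theorem seven_op : seven ⊆ opT4 seven := by
  have ha : ∀ j : Fin 4, (![(1, 2, 0), (2, 6, 0), (6, 4, 0), (4, 1, 0)] : Fin 4 → Pt) j ∈ seven := by
    intro j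
    fin_cases j
    · exact m0
    · exact m5
    · exact m2
    · exact m1
  have hb : ∀ j : Fin 4, (![(1, 2, 0), (2, 6, 0), (5, 5, 0), (4, 1, 0)] : Fin 4 → Pt) j ∈ seven := by
    intro j
    fin_cases j
    · exact m0
    · exact m5
    · exact m4
    · exact m1
  have h33 : RankOneDir (((3, 3, 1) : Pt) - (3, 3, 0)) := by
    refine ⟨?_, by simp⟩
    intro h
    have := congrArg (fun q : Pt => q.2.2) h
    norm_num at this
  rintro A (hA | hA)
  · simp only [six, Set.mem_insert_iff, Set.mem_singleton_iff] at hA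
    rcases hA with rfl | rfl | rfl | rfl | rfl | rfl
    · exact Or.inl ⟨_, T4a, ha, vertex_hullMax ⟨0, rfl⟩⟩
    · exact Or.inl ⟨_, T4a, ha, vertex_hullMax ⟨3, rfl⟩⟩
    · exact Or.inl ⟨_, T4a, ha, vertex_hullMax ⟨2, rfl⟩⟩
    · exact Or.inr ⟨(3, 3, 0), m6, (3, 3, 1), m3, h33, right_mem_segment ℝ _ _⟩
    · exact Or.inl ⟨_, T4b, hb, vertex_hullMax ⟨2, rfl⟩⟩
    · exact Or.inl ⟨_, T4a, ha, vertex_hullMax ⟨1, rfl⟩⟩
  · rw [Set.mem_singleton_iff] at hA
    subst hA
    exact Or.inr ⟨(3, 3, 0), m6, (3, 3, 1), m3, h33, left_mem_segment ℝ _ _⟩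

theorem start_mem : ((2, 2, 0) : Pt) ∈ opT4 seven := by
  left
  refine ⟨_, T4a, ?_, ?_⟩
  · intro j
    fin_cases j
    · exact m0
    · exact m5
    · exact m2
    · exact m1
  · intro f hf
    by_contra hcon
    push Not at hcon
    have k0 := hcon (1, 2, 0) ⟨0, rfl⟩
    have k1 := hcon (2, 6, 0) ⟨1, rfl⟩
    have k2 := hcon (6, 4, 0) ⟨2, rfl⟩
    have k3 := hcon (4, 1, 0) ⟨3, rfl⟩
    have s1 := rc_seg hf (1, 2, 0) (4, 2, 0) (2, 2, 0) (1 / 3) (by norm_num)
      (by norm_num) (by simp <;> norm_num) (by simp) (by simp <;> norm_num)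
    have s2 := rc_seg hf (4, 1, 0) (4, 4, 0) (4, 2, 0) (1 / 3) (by norm_num)
      (by norm_num) (by simp <;> norm_num) (by simp) (by simp <;> norm_num)
    have s3 := rc_seg hf (6, 4, 0) (2, 4, 0) (4, 4, 0) (1 / 2) (by norm_num)
      (by norm_num) (by simp <;> norm_num) (by simp) (by simp <;> norm_num)
    have s4 := rc_seg hf (2, 6, 0) (2, 2, 0) (2, 4, 0) (1 / 2) (by norm_num)
      (by norm_num) (by simp <;> norm_num) (by simp) (by simp <;> norm_num)
    linarith

section chain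

variable (it : ℕ → Set Pt) (h0 : seven ⊆ it 0) (hop : ∀ i, opT4 (it i) ⊆ it (i + 1))

include h0 hop

theorem persist (i : ℕ) : seven ⊆ it i := by
  induction i with
  | zero => exact h0
  | succ i ih => exact (seven_op.trans (op_mono ih)).trans (hop i)

theorem seg_mem {i : ℕ} {A B : Pt} (hA : A ∈ it i) (hB : B ∈ seven) (C : Pt) (t : ℝ)
    (ht0 : 0 ≤ t) (ht1 : t ≤ 1) (hne : B - A ≠ 0) (hd : (B - A).1 * (B - A).2.1 = 0)
    (hC : C = (1 - t) • A + t • B) : C ∈ it (i + 1) := by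
  apply hop
  right
  exact ⟨A, hA, B, persist it h0 hop i hB, ⟨hne, hd⟩, ⟨1 - t, t, by linarith, ht0, by ring, hC.symm⟩⟩

/-- heights of the approximating points -/
noncomputable def an : ℕ → ℝ
  | 0 => 0
  | n + 1 => (1 + an n / 6) / 27

omit h0 hop in
theorem an_eq (n : ℕ) : an n = 6 / 161 - 6 / 161 * (1 / 162) ^ n := by
  induction n with
  | zero => simp [an]
  | succ n ih =>
    show (1 + an n / 6) / 27 = _
    rw [ih, pow_succ]
    ring

omit h0 hop in
theorem an_lim : Tendsto an atTop (𝓝 (6 / 161)) := by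
  have h1 : Tendsto (fun n : ℕ => ((1 : ℝ) / 162) ^ n) atTop (𝓝 0) :=
    tendsto_pow_atTop_nhds_zero_of_lt_one (by norm_num) (by norm_num)
  have h2 : Tendsto (fun n : ℕ => (6 : ℝ) / 161 - 6 / 161 * (1 / 162) ^ n) atTop
      (𝓝 (6 / 161 - 6 / 161 * 0)) := tendsto_const_nhds.sub (h1.const_mul _)
  rw [mul_zero, sub_zero] at h2
  exact h2.congr fun n => (an_eq n).symm

theorem approach (n : ℕ) : ((2, 2, an n) : Pt) ∈ it (6 * n + 1) := by
  induction n with
  | zero => exact hop 0 (op_mono h0 start_mem)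
  | succ n ih =>
    have s1 : ((2, 5, an n / 4) : Pt) ∈ it (6 * n + 2) := by
      refine seg_mem it h0 hop ih m5 _ (3 / 4) (by norm_num) (by norm_num) ?_ (by simp) ?_
      · exact pt_ne (Or.inr (by norm_num))
      · ext <;> simp <;> ring
    have s2 : ((3, 5, an n / 6) : Pt) ∈ it (6 * n + 3) := by
      refine seg_mem it h0 hop s1 m4 _ (1 / 3) (by norm_num) (by norm_num) ?_ (by simp) ?_
      · exact pt_ne (Or.inl (by norm_num))
      · ext <;> simp <;> ring
    have s3 : ((3, 4, (1 + an n / 6) / 2) : Pt) ∈ it (6 * n + 4) := by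
      refine seg_mem it h0 hop s2 m3 _ (1 / 2) (by norm_num) (by norm_num) ?_ (by simp) ?_
      · exact pt_ne (Or.inr (by norm_num))
      · ext <;> simp <;> ring
    have s4 : ((4, 4, (1 + an n / 6) / 3) : Pt) ∈ it (6 * n + 5) := by
      refine seg_mem it h0 hop s3 m2 _ (1 / 3) (by norm_num) (by norm_num) ?_ (by simp) ?_
      · exact pt_ne (Or.inl (by norm_num))
      · ext <;> simp <;> ring
    have s5 : ((4, 2, (1 + an n / 6) / 9) : Pt) ∈ it (6 * n + 6) := by
      refine seg_mem it h0 hop s4 m1 _ (2 / 3) (by norm_num) (by norm_num) ?_ (by simp) ?_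
      · exact pt_ne (Or.inr (by norm_num))
      · ext <;> simp <;> ring
    have s6 : ((2, 2, (1 + an n / 6) / 27) : Pt) ∈ it (6 * n + 7) := by
      refine seg_mem it h0 hop s5 m0 _ (2 / 3) (by norm_num) (by norm_num) ?_ (by simp) ?_
      · exact pt_ne (Or.inl (by norm_num))
      · ext <;> simp <;> ring
    exact s6

/-- no finite termination -/
theorem no_termination (hcl : ∀ i, closure (it i) ⊆ Sset) (N : ℕ) :
    (⋃ i ∈ Set.Iic N, it i) ≠ ⋃ i, it i := by
  intro h
  have h1 : top ∈ closure (⋃ i ∈ Set.Iic N, it i) := by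
    refine mem_closure_of_tendsto (f := fun n : ℕ => ((2, 2, an n) : Pt)) (b := atTop) ?_ ?_
    · exact Tendsto.prodMk_nhds tendsto_const_nhds (Tendsto.prodMk_nhds tendsto_const_nhds an_lim)
    · refine Eventually.of_forall fun n => ?_
      rw [h]
      exact Set.mem_iUnion.2 ⟨_, approach it h0 hop n⟩
  rw [(Set.finite_Iic N).closure_biUnion] at h1
  obtain ⟨i, -, hi⟩ := Set.mem_iUnion₂.1 h1
  exact top_not_mem (hcl i hi)

end chain

end Q231.RC
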