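import Pool.Agent.Q231.RC.Main

namespace Q231.RC

open Filter Topology

/-- The rank-one convex hull of a set. -/
def hull (K : Set Pt) : Set Pt :=
  {A | ∀ f : Pt → ℝ, RankOneConvex f → (∀ B ∈ K, f B = 0) → f A ≤ 0}

theorem max_rc {f : Pt → ℝ} (hf : RankOneConvex f) (c : ℝ) :
    RankOneConvex (fun A => max (f A - c) 0) := by
  intro A B h t h0 h1
  have := hf A B h t h0 h1
  have h1' : 0 ≤ 1 - t := by linarith
  apply max_le
  · have e1 := mul_le_mul_of_nonneg_left (le_max_left (f A - c) 0) h1'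
    have e2 := mul_le_mul_of_nonneg_left (le_max_left (f B - c) 0) h0
    linarith
  · exact add_nonneg (mul_nonneg h1' (le_max_right _ _)) (mul_nonneg h0 (le_max_right _ _))

theorem hull_le {K : Set Pt} {A : Pt} (hA : A ∈ hull K) {f : Pt → ℝ} (hf : RankOneConvex f)
    {c : ℝ} (hK : ∀ B ∈ K, f B ≤ c) : f A ≤ c := by
  have := hA _ (max_rc hf c) fun B hB => by
    apply max_eq_right
    linarith [hK B hB]
  have h2 := le_max_left (f A - c) 0
  linarith

theorem hull_sub_hullc {K : Set Pt} : hull K ⊆ hullc K := fun _ hA _ hf _ hK => hull_le hA hf hK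

theorem subset_hull (K : Set Pt) : K ⊆ hull K := fun A hA f _ hf => (hf A hA).le

theorem segment_sub_hull {A B : Pt} (h : RankOneDir (B - A)) :
    segment ℝ A B ⊆ hull ({A, B} : Set Pt) := by
  rintro C ⟨a, b, ha, hb, hab, rfl⟩ f hf hK
  have ha' : a = 1 - b := by linarith
  subst ha'
  have := hf A B h b hb (by linarith)
  rw [hK A (by simp), hK B (by simp)] at this
  linarith

/-- convexity along a segment, convenient form -/
theorem rc_seg {f : Pt → ℝ} (hf : RankOneConvex f) (A B C : Pt) (t : ℝ) (h0 : 0 ≤ t) (h1 : t ≤ 1)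
    (hne : B - A ≠ 0) (hd : (B - A).1 * (B - A).2.1 = 0) (hC : C = (1 - t) • A + t • B) :
    f C ≤ (1 - t) * f A + t * f B := by
  rw [hC]
  exact hf A B ⟨hne, hd⟩ t h0 h1

theorem E0 : E 0 = (1, 2, 0) := by simp [E, nd, ex, ey, zz]; norm_num
theorem E1 : E 1 = (4, 1, 0) := by simp [E, nd, ex, ey, zz]; norm_num
theorem E2 : E 2 = (6, 4, 0) := by simp [E, nd, ex, ey, zz]; norm_num
theorem E3 : E 3 = (3, 3, 1) := by simp [E, nd, ex, ey, zz]; norm_num
theorem E4 : E 4 = (5, 5, 0) := by simp [E, nd, ex, ey, zz]; norm_num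
theorem E5 : E 5 = (2, 6, 0) := by simp [E, nd, ex, ey, zz]; norm_num

/-- the point on the top -/
noncomputable def top : Pt := (2, 2, 6 / 161)

theorem pt_ne {x y z : ℝ} (h : x ≠ 0 ∨ y ≠ 0) : ((x, y, z) : Pt) ≠ 0 := by
  intro h0
  have h1 : x = 0 := congrArg Prod.fst h0
  have h2 : y = 0 := congrArg (fun q : Pt => q.2.1) h0
  rcases h with h | h
  · exact h h1
  · exact h h2

theorem top_le {f : Pt → ℝ} (hf : RankOneConvex f) (hK : ∀ k, f (E k) ≤ 0) : f top ≤ 0 := by
  have k0 := hK 0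
  have k1 := hK 1
  have k2 := hK 2
  have k3 := hK 3
  have k4 := hK 4
  have k5 := hK 5
  rw [E0] at k0
  rw [E1] at k1
  rw [E2] at k2
  rw [E3] at k3
  rw [E4] at k4
  rw [E5] at k5
  have s1 := rc_seg hf (1, 2, 0) (4, 2, 18 / 161) (2, 2, 6 / 161) (1 / 3) (by norm_num)
    (by norm_num) (by simp <;> norm_num) (by simp) (by simp <;> norm_num)
  have s2 := rc_seg hf (4, 1, 0) (4, 4, 54 / 161) (4, 2, 18 / 161) (1 / 3) (by norm_num)
    (by norm_num) (by simp <;> norm_num) (by simp) (by simp <;> norm_num)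
  have s3 := rc_seg hf (6, 4, 0) (3, 4, 81 / 161) (4, 4, 54 / 161) (2 / 3) (by norm_num)
    (by norm_num) (by simp <;> norm_num) (by simp) (by simp <;> norm_num)
  have s4 := rc_seg hf (3, 3, 1) (3, 5, 1 / 161) (3, 4, 81 / 161) (1 / 2) (by norm_num)
    (by norm_num) (by simp <;> norm_num) (by simp) (by simp <;> norm_num)
  have s5 := rc_seg hf (5, 5, 0) (2, 5, 3 / 322) (3, 5, 1 / 161) (2 / 3) (by norm_num)
    (by norm_num) (by simp <;> norm_num) (by simp) (by simp <;> norm_num)
  have s6 := rc_seg hf (2, 6, 0) (2, 2, 6 / 161) (2, 5, 3 / 322) (1 / 4) (by norm_num)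
    (by norm_num) (by simp <;> norm_num) (by simp) (by simp <;> norm_num)
  show f (2, 2, 6 / 161) ≤ 0
  linarith

theorem top_not_mem : top ∉ Sset := by
  rintro ⟨-, -, -, h⟩
  rcases h with ⟨k, hk⟩ | h
  · have h1 : (E k).2.2 = 6 / 161 := by rw [hk]; rfl
    have h2 : (E k).2.2 = zz k := rfl
    rw [h2] at h1
    unfold zz at h1
    split_ifs at h1 <;> norm_num at h1
  · have e : bil g top.1 top.2.1 = 12 := by
      have hn : nd 1 = 2 := by simp [nd]; norm_num
      show bil g 2 2 = 12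
      rw [← hn, bil_node]
      simp [g, G]
    rw [e] at h
    have : (322 : ℝ) * top.2.2 = 12 := by show (322 : ℝ) * (6 / 161) = 12; norm_num
    linarith

theorem E_inj : Function.Injective E := by
  intro k l h
  have h1 : nd (ex k) = nd (ex l) := congrArg Prod.fst h
  have h2 : ex k = ex l := by
    unfold nd at h1
    have : ((ex k : ℕ) : ℝ) = ((ex l : ℕ) : ℝ) := by linarith
    exact Fin.ext (by exact_mod_cast this)
  have hx : ∀ l l', ex l = ex l' → l = l' := by decide
  exact hx _ _ h2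

/-- five points miss one of the six points -/
theorem exists_missing {n : ℕ} (hn : n ≤ 5) (F : Fin n → Pt) : ∃ k, E k ∉ Set.range F := by
  by_contra h
  push Not at h
  choose i hi using h
  have hinj : Function.Injective i := by
    intro k l hkl
    apply E_inj
    rw [← hi k, ← hi l, hkl]
  have := Fintype.card_le_of_injective i hinj
  simp only [Fintype.card_fin] at this
  omega

/-- closedness of `Sset` under hulls of at most five points -/
theorem hullc_sub {n : ℕ} (hn : n ≤ 5) (F : Fin n → Pt) (hF : ∀ j, F j ∈ Sset) :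
    hullc (Set.range F) ⊆ Sset := by
  obtain ⟨k, hk⟩ := exists_missing hn F
  exact fun A hA => key F hF k hk hA

/-- The set `K^(i+1)` of the problem, made from `S = K^(i)`. -/
def nextT4 (S : Set Pt) : Set Pt :=
  S ∪ {A | ∃ K : Fin 4 → Pt, IsT4 K ∧ (∀ j, K j ∈ S) ∧ A ∈ hull (Set.range K)} ∪
    {A | ∃ B ∈ S, ∃ C ∈ S, RankOneDir (C - B) ∧ A ∈ segment ℝ B C}

/-- the sets `K^(i)` -/
def iterT4 (K : Set Pt) : ℕ → Set Pt
  | 0 => K
  | i + 1 => nextT4 (iterT4 K i)

/-- the `T₄`-convex hull -/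
def hullT4 (K : Set Pt) : Set Pt := ⋃ i, iterT4 K i

/-- The same iteration with the hulls of arbitrary subsets with at most five points. -/
def iter5 (K : Set Pt) : ℕ → Set Pt
  | 0 => K
  | i + 1 => iter5 K i ∪
      {A | ∃ L : Fin 5 → Pt, (∀ j, L j ∈ iter5 K i) ∧ A ∈ hull (Set.range L)}

theorem iter5_sub (i : ℕ) : iter5 (Set.range E) i ⊆ Sset := by
  induction i with
  | zero => rintro _ ⟨k, rfl⟩; exact E_mem k
  | succ i ih =>
    rintro A (hA | ⟨L, h1, h2⟩)
    · exact ih hA
    · exact hullc_sub le_rfl L (fun j => ih (h1 j)) (hull_sub_hullc h2)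

theorem hull_mono {K L : Set Pt} (h : K ⊆ L) : hull K ⊆ hull L :=
  fun _ hA f hf hL => hA f hf fun B hB => hL B (h hB)

theorem iterT4_sub_iter5 (K : Set Pt) (i : ℕ) : iterT4 K i ⊆ iter5 K i := by
  induction i with
  | zero => exact subset_rfl
  | succ i ih =>
    rintro A ((hA | ⟨L, -, h1, h2⟩) | ⟨B, hB, C, hC, h1, h2⟩)
    · exact Or.inl (ih hA)
    · refine Or.inr ⟨Fin.cons (L 0) L, ?_, hull_mono ?_ h2⟩
      · intro j
        refine Fin.cases ?_ (fun j => ?_) j
        · exact ih (h1 0)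
        · exact ih (h1 j)
      · rintro _ ⟨j, rfl⟩
        exact ⟨j.succ, rfl⟩
    · refine Or.inr ⟨fun j => if j = 0 then B else C, ?_, hull_mono ?_ (segment_sub_hull h1 h2)⟩
      · intro j
        by_cases hj : j = 0
        · simp only [hj, if_true]; exact ih hB
        · simp only [hj, if_false]; exact ih hC
      · rintro D hD
        rcases hD with rfl | hD
        · exact ⟨0, by simp⟩
        · rw [Set.mem_singleton_iff] at hD
          subst hD
          exact ⟨1, by simp⟩

theorem top_mem_hull : top ∈ hull (Set.range E) := by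
  intro f hf hK
  exact top_le hf fun k => (hK _ ⟨k, rfl⟩).le

/-- the six points -/
def six : Set Pt :=
  {(1, 2, 0), (4, 1, 0), (6, 4, 0), (3, 3, 1), (5, 5, 0), (2, 6, 0)}

theorem range_E : Set.range E = six := by
  ext A
  constructor
  · rintro ⟨k, rfl⟩
    fin_cases k
    · show E 0 ∈ six; rw [E0]; simp [six]
    · show E 1 ∈ six; rw [E1]; simp [six]
    · show E 2 ∈ six; rw [E2]; simp [six]
    · show E 3 ∈ six; rw [E3]; simp [six]
    · show E 4 ∈ six; rw [E4]; simp [six]
    · show E 5 ∈ six; rw [E5]; simp [six]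
  · intro h
    simp only [six, Set.mem_insert_iff, Set.mem_singleton_iff] at h
    rcases h with rfl | rfl | rfl | rfl | rfl | rfl
    · exact ⟨0, E0⟩
    · exact ⟨1, E1⟩
    · exact ⟨2, E2⟩
    · exact ⟨3, E3⟩
    · exact ⟨4, E4⟩
    · exact ⟨5, E5⟩

end Q231.RC
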