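import Pool.Agent.Q231.RC.Core

namespace Q231.RC

open Filter Topology

/-- the grid function, scaled by `322` -/
def G : Fin 6 → Fin 6 → ℤ :=
  ![![-870, 0, -310, -630, -960, -1300], ![-570, 12, 9, 6, 3, 0], ![-280, 24, 322, 162, 2, -170],
    ![0, 36, 72, 108, 1, -350], ![-900, -500, -200, 54, 0, -540],
    ![-2000, -1100, -500, 0, -10, -740]]

/-- the perturbations -/
def P : Fin 6 → Fin 6 → Fin 6 → ℤ :=
  ![![![200, 161, 200, 200, 200, 200], ![200, 108, 81, 54, 27, 0], ![200, 55, 0, 9, 18, 200],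
      ![0, 2, 4, 6, 9, 200], ![200, 200, 200, 3, 0, 200], ![200, 200, 200, 0, 200, 200]],
    ![![200, 0, 200, 200, 200, 200], ![200, 36, 27, 18, 9, 0], ![200, 72, 0, 3, 6, 200],
      ![161, 108, 55, 2, 3, 200], ![200, 200, 200, 1, 0, 200], ![200, 200, 200, 0, 200, 200]],
    ![![100, 0, 100, 100, 100, 100], ![100, 12, 9, 6, 3, 0], ![100, 24, 0, 1, 2, 100],
      ![0, 36, 72, 108, 1, 100], ![100, 100, 100, 215, 0, 100], ![100, 100, 100, 322, 100, 100]],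
    ![![200, 0, 200, 200, 200, 200], ![200, 12, 9, 6, 3, 0], ![200, 24, 322, 162, 2, 200],
      ![0, 36, 72, 108, 1, 200], ![200, 200, 200, 54, 0, 200], ![200, 200, 200, 0, 200, 200]],
    ![![100, 0, 100, 100, 100, 100], ![100, 4, 3, 2, 1, 0], ![100, 8, 0, 54, 108, 100],
      ![0, 12, 24, 36, 215, 100], ![100, 100, 100, 18, 322, 100], ![100, 100, 100, 0, 100, 100]],
    ![![600, 0, 600, 600, 600, 600], ![600, 6, 85, 164, 243, 322], ![600, 12, 0, 81, 162, 600],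
      ![0, 18, 36, 54, 81, 600], ![600, 600, 600, 27, 0, 600], ![600, 600, 600, 0, 600, 600]]]

/-- nodes of the six points -/
def ex : Fin 6 → Fin 6 := ![0, 3, 5, 2, 4, 1]
def ey : Fin 6 → Fin 6 := ![1, 0, 3, 2, 4, 5]

theorem G_x : ∀ j, G 0 j + G 2 j ≤ 2 * G 1 j ∧ G 1 j + G 3 j ≤ 2 * G 2 j ∧
    G 2 j + G 4 j ≤ 2 * G 3 j ∧ G 3 j + G 5 j ≤ 2 * G 4 j ∧ G 1 j - G 0 j ≤ 2000 ∧
    G 4 j - G 5 j ≤ 2000 := by decide

theorem G_y : ∀ i, G i 0 + G i 2 ≤ 2 * G i 1 ∧ G i 1 + G i 3 ≤ 2 * G i 2 ∧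
    G i 2 + G i 4 ≤ 2 * G i 3 ∧ G i 3 + G i 5 ≤ 2 * G i 4 ∧ G i 1 - G i 0 ≤ 2000 ∧
    G i 4 - G i 5 ≤ 2000 := by decide

theorem P_x : ∀ k j, 64 * G 0 j - P k 0 j + (64 * G 2 j - P k 2 j) ≤ 2 * (64 * G 1 j - P k 1 j) ∧
    64 * G 1 j - P k 1 j + (64 * G 3 j - P k 3 j) ≤ 2 * (64 * G 2 j - P k 2 j) ∧
    64 * G 2 j - P k 2 j + (64 * G 4 j - P k 4 j) ≤ 2 * (64 * G 3 j - P k 3 j) ∧
    64 * G 3 j - P k 3 j + (64 * G 5 j - P k 5 j) ≤ 2 * (64 * G 4 j - P k 4 j) ∧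
    (64 * G 1 j - P k 1 j) - (64 * G 0 j - P k 0 j) ≤ 64 * 2000 ∧
    (64 * G 4 j - P k 4 j) - (64 * G 5 j - P k 5 j) ≤ 64 * 2000 := by decide

theorem P_y : ∀ k i, 64 * G i 0 - P k i 0 + (64 * G i 2 - P k i 2) ≤ 2 * (64 * G i 1 - P k i 1) ∧
    64 * G i 1 - P k i 1 + (64 * G i 3 - P k i 3) ≤ 2 * (64 * G i 2 - P k i 2) ∧
    64 * G i 2 - P k i 2 + (64 * G i 4 - P k i 4) ≤ 2 * (64 * G i 3 - P k i 3) ∧
    64 * G i 3 - P k i 3 + (64 * G i 5 - P k i 5) ≤ 2 * (64 * G i 4 - P k i 4) ∧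
    (64 * G i 1 - P k i 1) - (64 * G i 0 - P k i 0) ≤ 64 * 2000 ∧
    (64 * G i 4 - P k i 4) - (64 * G i 5 - P k i 5) ≤ 64 * 2000 := by decide

theorem P_nonneg : ∀ k i j, 0 ≤ P k i j := by decide

theorem P_zero : ∀ k i j, P k i j = 0 → ∃ l, l ≠ k ∧ i = ex l ∧ j = ey l := by decide

theorem P_node : ∀ k l, l ≠ k → P k (ex l) (ey l) = 0 := by decide

theorem P_match : ∀ k i j i' j', P k i j = 0 → P k i' j' = 0 → (i = i' ∨ j = j') →
    (i = i' ∧ j = j') := by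
  intro k i j i' j' h1 h2 h3
  obtain ⟨l, -, rfl, rfl⟩ := P_zero k i j h1
  obtain ⟨l', -, rfl, rfl⟩ := P_zero k i' j' h2
  have hx : ∀ l l', ex l = ex l' → l = l' := by decide
  have hy : ∀ l l', ey l = ey l' → l = l' := by decide
  rcases h3 with h3 | h3
  · rw [hx _ _ h3]; exact ⟨rfl, rfl⟩
  · rw [hy _ _ h3]; exact ⟨rfl, rfl⟩

/-- real versions -/
def g (i j : Fin 6) : ℝ := (G i j : ℝ)
def p (k i j : Fin 6) : ℝ := (P k i j : ℝ)

theorem conc_s (k : Fin 6) (s : ℝ) (hs0 : 0 ≤ s) (hs1 : 64 * s ≤ 1) :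
    Conc (fun i j => g i j - s * p k i j) 2000 := by
  have comb : ∀ a b : ℝ, a ≤ 0 → 64 * a + b ≤ 0 → a + s * b ≤ 0 := by
    intro a b ha hb
    have e1 : (1 - 64 * s) * a ≤ 0 := mul_nonpos_of_nonneg_of_nonpos (by linarith) ha
    have e2 : s * (64 * a + b) ≤ 0 := mul_nonpos_of_nonneg_of_nonpos hs0 hb
    linarith
  constructor
  · intro j
    obtain ⟨a1, a2, a3, a4, a5, a6⟩ := G_x j
    obtain ⟨b1, b2, b3, b4, b5, b6⟩ := P_x k j
    have A1 : g 0 j + g 2 j ≤ 2 * g 1 j := by unfold g; exact_mod_cast a1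
    have A2 : g 1 j + g 3 j ≤ 2 * g 2 j := by unfold g; exact_mod_cast a2
    have A3 : g 2 j + g 4 j ≤ 2 * g 3 j := by unfold g; exact_mod_cast a3
    have A4 : g 3 j + g 5 j ≤ 2 * g 4 j := by unfold g; exact_mod_cast a4
    have A5 : g 1 j - g 0 j ≤ 2000 := by unfold g; exact_mod_cast a5
    have A6 : g 4 j - g 5 j ≤ 2000 := by unfold g; exact_mod_cast a6
    have B1 : 64 * g 0 j - p k 0 j + (64 * g 2 j - p k 2 j) ≤ 2 * (64 * g 1 j - p k 1 j) := by
      unfold g p; exact_mod_cast b1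
    have B2 : 64 * g 1 j - p k 1 j + (64 * g 3 j - p k 3 j) ≤ 2 * (64 * g 2 j - p k 2 j) := by
      unfold g p; exact_mod_cast b2
    have B3 : 64 * g 2 j - p k 2 j + (64 * g 4 j - p k 4 j) ≤ 2 * (64 * g 3 j - p k 3 j) := by
      unfold g p; exact_mod_cast b3
    have B4 : 64 * g 3 j - p k 3 j + (64 * g 5 j - p k 5 j) ≤ 2 * (64 * g 4 j - p k 4 j) := by
      unfold g p; exact_mod_cast b4
    have B5 : (64 * g 1 j - p k 1 j) - (64 * g 0 j - p k 0 j) ≤ 64 * 2000 := by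
      unfold g p; exact_mod_cast b5
    have B6 : (64 * g 4 j - p k 4 j) - (64 * g 5 j - p k 5 j) ≤ 64 * 2000 := by
      unfold g p; exact_mod_cast b6
    have C1 := comb (g 0 j + g 2 j - 2 * g 1 j) (-(p k 0 j + p k 2 j - 2 * p k 1 j))
      (by linarith) (by linarith)
    have C2 := comb (g 1 j + g 3 j - 2 * g 2 j) (-(p k 1 j + p k 3 j - 2 * p k 2 j))
      (by linarith) (by linarith)
    have C3 := comb (g 2 j + g 4 j - 2 * g 3 j) (-(p k 2 j + p k 4 j - 2 * p k 3 j))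
      (by linarith) (by linarith)
    have C4 := comb (g 3 j + g 5 j - 2 * g 4 j) (-(p k 3 j + p k 5 j - 2 * p k 4 j))
      (by linarith) (by linarith)
    have C5 := comb (g 1 j - g 0 j - 2000) (-(p k 1 j - p k 0 j)) (by linarith) (by linarith)
    have C6 := comb (g 4 j - g 5 j - 2000) (-(p k 4 j - p k 5 j)) (by linarith) (by linarith)
    refine ⟨?_, ?_, ?_, ?_, ?_, ?_⟩ <;> linarith
  · intro j
    obtain ⟨a1, a2, a3, a4, a5, a6⟩ := G_y j
    obtain ⟨b1, b2, b3, b4, b5, b6⟩ := P_y k j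
    have A1 : g j 0 + g j 2 ≤ 2 * g j 1 := by unfold g; exact_mod_cast a1
    have A2 : g j 1 + g j 3 ≤ 2 * g j 2 := by unfold g; exact_mod_cast a2
    have A3 : g j 2 + g j 4 ≤ 2 * g j 3 := by unfold g; exact_mod_cast a3
    have A4 : g j 3 + g j 5 ≤ 2 * g j 4 := by unfold g; exact_mod_cast a4
    have A5 : g j 1 - g j 0 ≤ 2000 := by unfold g; exact_mod_cast a5
    have A6 : g j 4 - g j 5 ≤ 2000 := by unfold g; exact_mod_cast a6
    have B1 : 64 * g j 0 - p k j 0 + (64 * g j 2 - p k j 2) ≤ 2 * (64 * g j 1 - p k j 1) := by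
      unfold g p; exact_mod_cast b1
    have B2 : 64 * g j 1 - p k j 1 + (64 * g j 3 - p k j 3) ≤ 2 * (64 * g j 2 - p k j 2) := by
      unfold g p; exact_mod_cast b2
    have B3 : 64 * g j 2 - p k j 2 + (64 * g j 4 - p k j 4) ≤ 2 * (64 * g j 3 - p k j 3) := by
      unfold g p; exact_mod_cast b3
    have B4 : 64 * g j 3 - p k j 3 + (64 * g j 5 - p k j 5) ≤ 2 * (64 * g j 4 - p k j 4) := by
      unfold g p; exact_mod_cast b4
    have B5 : (64 * g j 1 - p k j 1) - (64 * g j 0 - p k j 0) ≤ 64 * 2000 := by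
      unfold g p; exact_mod_cast b5
    have B6 : (64 * g j 4 - p k j 4) - (64 * g j 5 - p k j 5) ≤ 64 * 2000 := by
      unfold g p; exact_mod_cast b6
    have C1 := comb (g j 0 + g j 2 - 2 * g j 1) (-(p k j 0 + p k j 2 - 2 * p k j 1))
      (by linarith) (by linarith)
    have C2 := comb (g j 1 + g j 3 - 2 * g j 2) (-(p k j 1 + p k j 3 - 2 * p k j 2))
      (by linarith) (by linarith)
    have C3 := comb (g j 2 + g j 4 - 2 * g j 3) (-(p k j 2 + p k j 4 - 2 * p k j 3))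
      (by linarith) (by linarith)
    have C4 := comb (g j 3 + g j 5 - 2 * g j 4) (-(p k j 3 + p k j 5 - 2 * p k j 4))
      (by linarith) (by linarith)
    have C5 := comb (g j 1 - g j 0 - 2000) (-(p k j 1 - p k j 0)) (by linarith) (by linarith)
    have C6 := comb (g j 4 - g j 5 - 2000) (-(p k j 4 - p k j 5)) (by linarith) (by linarith)
    refine ⟨?_, ?_, ?_, ?_, ?_, ?_⟩ <;> linarith

/-- the upper right entries -/
noncomputable def zz (k : Fin 6) : ℝ := if k = 3 then 1 else 0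

/-- the six points -/
noncomputable def E (k : Fin 6) : Pt := (nd (ex k), nd (ey k), zz k)

theorem G_E : ∀ k, G (ex k) (ey k) = if k = 3 then 322 else 0 := by decide

theorem g_E (k : Fin 6) : g (ex k) (ey k) = 322 * zz k := by
  unfold g zz
  rw [G_E]
  split_ifs <;> norm_num

theorem nd_ge (i : Fin 6) : 1 ≤ nd i := by
  unfold nd
  have : (0 : ℝ) ≤ (i : ℕ) := Nat.cast_nonneg _
  linarith

theorem nd_le (i : Fin 6) : nd i ≤ 6 := by
  unfold nd
  have : ((i : ℕ) : ℝ) ≤ 5 := by exact_mod_cast (by omega : (i : ℕ) ≤ 5)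
  linarith

/-- the set of admissible points: nothing on the top except the six points -/
def Sset : Set Pt :=
  {A | (1 ≤ A.1 ∧ A.1 ≤ 6) ∧ (1 ≤ A.2.1 ∧ A.2.1 ≤ 6) ∧ (0 ≤ A.2.2 ∧ A.2.2 ≤ 1) ∧
    (A ∈ Set.range E ∨ 322 * A.2.2 < bil g A.1 A.2.1)}

theorem E_mem (k : Fin 6) : E k ∈ Sset := by
  refine ⟨⟨nd_ge _, nd_le _⟩, ⟨nd_ge _, nd_le _⟩, ⟨?_, ?_⟩, Or.inl ⟨k, rfl⟩⟩ <;>
    (show _ ≤ _; simp only [E, zz]; split_ifs <;> norm_num)

theorem aff_rc (a b c d : ℝ) : RankOneConvex (fun A : Pt => a * A.1 + b * A.2.1 + c * A.2.2 + d) := by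
  intro A B _ t _ _
  simp only [Prod.fst_add, Prod.snd_add, Prod.smul_fst, Prod.smul_snd, smul_eq_mul]
  apply le_of_eq
  ring

theorem aff_cont (a b c d : ℝ) :
    Continuous (fun A : Pt => a * A.1 + b * A.2.1 + c * A.2.2 + d) := by fun_prop

theorem p_nonneg (k i j : Fin 6) : 0 ≤ p k i j := by
  unfold p; exact_mod_cast P_nonneg k i j

theorem p_zero {k i j : Fin 6} (h : p k i j = 0) : P k i j = 0 := by
  unfold p at h; exact_mod_cast h

/-- The key lemma: a finite subset of `Sset` which misses one of the six points does not produce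
a point outside `Sset`. -/
theorem key {ι : Type} [Finite ι] (F : ι → Pt) (hF : ∀ j, F j ∈ Sset) (k : Fin 6)
    (hk : E k ∉ Set.range F) {A : Pt} (hA : A ∈ hullc (Set.range F)) : A ∈ Sset := by
  have aff : ∀ a b c d : ℝ, (∀ B ∈ Sset, a * B.1 + b * B.2.1 + c * B.2.2 + d ≤ 0) →
      a * A.1 + b * A.2.1 + c * A.2.2 + d ≤ 0 := by
    intro a b c d h
    refine hA _ (aff_rc a b c d) (aff_cont a b c d) ?_
    rintro _ ⟨j, rfl⟩
    exact h _ (hF j)
  have x1 : 1 ≤ A.1 := by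
    have := aff (-1) 0 0 1 (fun B hB => by have := hB.1.1; linarith)
    linarith
  have x2 : A.1 ≤ 6 := by
    have := aff 1 0 0 (-6) (fun B hB => by have := hB.1.2; linarith)
    linarith
  have y1 : 1 ≤ A.2.1 := by
    have := aff 0 (-1) 0 1 (fun B hB => by have := hB.2.1.1; linarith)
    linarith
  have y2 : A.2.1 ≤ 6 := by
    have := aff 0 1 0 (-6) (fun B hB => by have := hB.2.1.2; linarith)
    linarith
  have z1 : 0 ≤ A.2.2 := by
    have := aff 0 0 (-1) 0 (fun B hB => by have := hB.2.2.1.1; linarith)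
    linarith
  have z2 : A.2.2 ≤ 1 := by
    have := aff 0 0 1 (-1) (fun B hB => by have := hB.2.2.1.2; linarith)
    linarith
  refine ⟨⟨x1, x2⟩, ⟨y1, y2⟩, ⟨z1, z2⟩, ?_⟩
  by_contra hcon
  push Not at hcon
  obtain ⟨hAK, htop⟩ := hcon
  -- value of the test functions on `Sset`
  have val : ∀ (s : ℝ) (B : Pt), 1 ≤ B.1 → B.1 ≤ 6 → 1 ≤ B.2.1 → B.2.1 ≤ 6 →
      ff 322 2000 (fun i j => g i j - s * p k i j) B =
        322 * B.2.2 - bil g B.1 B.2.1 + s * bil (p k) B.1 B.2.1 := by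
    intro s B h1 h2 h3 h4
    unfold ff
    rw [bil_comb, D_zero h1 h2, D_zero h3 h4]
    ring
  have hev : ∀ᶠ s in 𝓝[>] (0 : ℝ), ∀ j, ff 322 2000 (fun i j => g i j - s * p k i j) (F j) ≤ 0 := by
    rw [eventually_all]
    intro j
    obtain ⟨⟨h1, h2⟩, ⟨h3, h4⟩, -, h5⟩ := hF j
    rcases h5 with ⟨l, hl⟩ | h5
    · refine Eventually.of_forall fun s => ?_
      rw [val s _ h1 h2 h3 h4, ← hl]
      have hlk : l ≠ k := by
        rintro rfl
        exact hk ⟨j, hl.symm⟩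
      have e1 : bil g (E l).1 (E l).2.1 = 322 * zz l := by
        show bil g (nd (ex l)) (nd (ey l)) = _
        rw [bil_node, g_E]
      have e2 : bil (p k) (E l).1 (E l).2.1 = 0 := by
        show bil (p k) (nd (ex l)) (nd (ey l)) = _
        rw [bil_node]
        unfold p
        rw [P_node k l hlk, Int.cast_zero]
      rw [e1, e2]
      show 322 * zz l - 322 * zz l + s * 0 ≤ 0
      linarith
    · have hc : Continuous fun s : ℝ => 322 * (F j).2.2 - bil g (F j).1 (F j).2.1 +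
          s * bil (p k) (F j).1 (F j).2.1 := by fun_prop
      have h0 : 322 * (F j).2.2 - bil g (F j).1 (F j).2.1 +
          (0 : ℝ) * bil (p k) (F j).1 (F j).2.1 < 0 := by linarith
      have := (hc.tendsto 0).eventually (gt_mem_nhds h0)
      refine (this.filter_mono nhdsWithin_le_nhds).mono fun s hs => ?_
      rw [val s _ h1 h2 h3 h4]
      exact hs.le
  have hs1 : ∀ᶠ s in 𝓝[>] (0 : ℝ), 64 * s < 1 := by
    have hc : Continuous fun s : ℝ => 64 * s := by fun_prop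
    have := (hc.tendsto 0).eventually (gt_mem_nhds (by norm_num : (64 : ℝ) * 0 < 1))
    exact this.filter_mono nhdsWithin_le_nhds
  obtain ⟨s, hs, hs', hs0⟩ := (hev.and (hs1.and self_mem_nhdsWithin)).exists
  have hs0' : 0 < s := hs0
  have hfA := hA _ (ff_rc 322 2000 _ (conc_s k s hs0'.le hs'.le)) (ff_cont _ _ _) (by
    rintro _ ⟨j, rfl⟩
    exact hs j)
  rw [val s _ x1 x2 y1 y2] at hfA
  rcases posbox (p k) (p_nonneg k) (fun i j i' j' h1 h2 h3 =>
    P_match k i j i' j' (p_zero h1) (p_zero h2) h3) x1 x2 y1 y2 with h | ⟨i, j, h1, h2, h3⟩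
  · have := mul_pos hs0' h
    linarith
  · obtain ⟨l, -, rfl, rfl⟩ := P_zero k i j (p_zero h1)
    -- `A` is above the node of `E l`
    have hf0 := hA _ (ff_rc 322 2000 _ (conc_s k 0 le_rfl (by norm_num))) (ff_cont _ _ _) (by
      rintro _ ⟨j, rfl⟩
      obtain ⟨⟨q1, q2⟩, ⟨q3, q4⟩, -, q5⟩ := hF j
      rw [val 0 _ q1 q2 q3 q4]
      rcases q5 with ⟨l', hl'⟩ | q5
      · rw [← hl']
        have e1 : bil g (E l').1 (E l').2.1 = 322 * zz l' := by
          show bil g (nd (ex l')) (nd (ey l')) = _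
          rw [bil_node, g_E]
        rw [e1]
        show 322 * zz l' - 322 * zz l' + 0 * _ ≤ 0
        linarith
      · linarith)
    rw [val 0 _ x1 x2 y1 y2, h2, h3, bil_node, g_E] at hf0
    rw [h2, h3, bil_node, g_E] at htop
    apply hAK
    refine ⟨l, ?_⟩
    show (nd (ex l), nd (ey l), zz l) = A
    rw [← h2, ← h3]
    have : A.2.2 = zz l := by linarith
    rw [← this]

end Q231.RC
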